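import Pool.Agent.MP_dd77b8_co.H98.Simplex

set_option autoImplicit false

namespace Pool.Agent.Results.MP_dd77b8_co.AllLevels

/-- For every level k at least 1, the unit vectors among the product functions on (k+1)-sets built
from functions on k-sets have Borsuk number at most d + 1, where d = C(n,k+1). -/
theorem result :
    ∀ n k : ℕ, 1 ≤ k → k + 1 ≤ n →
      ∀ X : Set (EuclideanSpace ℝ {T : Finset (Fin n) // T.card = k + 1}),
        X = {f | ∃ g : Finset (Fin n) → ℝ,
              f = WithLp.toLp 2 (fun T : {T : Finset (Fin n) // T.card = k + 1} =>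
                    ∏ S ∈ T.1.powersetCard k, g S) ∧ ‖f‖ = 1} →
        ∃ A : Fin (n.choose (k + 1) + 1) →
            Set (EuclideanSpace ℝ {T : Finset (Fin n) // T.card = k + 1}),
          (⋃ i, A i) = X ∧ ∀ i, Metric.diam (A i) < Metric.diam X := by
  intro n k hk hn X hX
  have hunit : ∀ f ∈ X, ‖f‖ = 1 := by
    intro f hf
    rw [hX] at hf
    obtain ⟨g, -, h1⟩ := hf
    exact h1
  have hcard := Pool.Agent.MP_dd77b8_co.H98.card_sub n (k + 1)
  have hne : Nonempty {T : Finset (Fin n) // T.card = k + 1} := by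
    rw [← Fintype.card_pos_iff, hcard]
    exact Nat.choose_pos hn
  have hdiam : 2 ≤ Metric.diam X := Pool.Agent.MP_dd77b8_co.H98.two_le_diam hk hn X hX
  rw [← hcard]
  obtain ⟨A, hA1, hA2⟩ := Pool.Agent.MP_dd77b8_co.H98.sphere_cover' X hunit
  exact ⟨A, hA1, fun i => lt_of_lt_of_le (hA2 i) hdiam⟩

end Pool.Agent.Results.MP_dd77b8_co.AllLevels
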