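import Pool.Agent.MP_dd77b8_co.H73.Sub

set_option autoImplicit false

namespace Pool.Agent.Results.MP_dd77b8_co.AllSubsets

/-- For every level k and every exponent c above k/(k+1), for all large n each bounded subset with
at least two points of the cone of product vectors on (k+1)-sets has Borsuk number below exp(d^c),
where d = C(n,k+1). -/
theorem result :
    ∀ (k : ℕ) (c : ℝ), (k : ℝ) / (k + 1) < c →
      ∃ N : ℕ, ∀ n : ℕ, N ≤ n →
        ∀ Y : Set (EuclideanSpace ℝ {T : Finset (Fin n) // T.card = k + 1}),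
          Y ⊆ {f | ∃ g : Finset (Fin n) → ℝ,
              f = WithLp.toLp 2 (fun T : {T : Finset (Fin n) // T.card = k + 1} =>
                    ∏ S ∈ T.1.powersetCard k, g S)} →
          Bornology.IsBounded Y → Y.Nontrivial →
          ∃ m : ℕ, (m : ℝ) < Real.exp (((n.choose (k + 1) : ℕ) : ℝ) ^ c) ∧
            ∃ A : Fin m → Set (EuclideanSpace ℝ {T : Finset (Fin n) // T.card = k + 1}),
              (⋃ i, A i) = Y ∧ ∀ i, Metric.diam (A i) < Metric.diam Y := by
  intro k c hc
  obtain ⟨N, hN⟩ := Pool.Agent.MP_dd77b8_co.H98.count_lt_exp k c (1 / 2) hc (by norm_num)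
  refine ⟨N, fun n hn Y hY hb hne => ?_⟩
  obtain ⟨m, hm, A, hA⟩ := Pool.Agent.MP_dd77b8_co.H73.all_subsets n k Y hY hb hne
  refine ⟨m, lt_of_le_of_lt (by exact_mod_cast hm) (hN n hn (2 * n.choose (k + 1) + 1) ?_), A, hA⟩
  push_cast
  apply le_of_eq
  ring

end Pool.Agent.Results.MP_dd77b8_co.AllSubsets
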