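import Pool.Agent.MP_dd77b8_co.H73.Closed

set_option autoImplicit false

namespace Pool.Agent.Results.MP_dd77b8_co.SignClosed

/-- Every subset of the unit ball, with coordinates the (k+1)-sets and any extra nonnegative
coordinates, that is closed under changing the sign of all coordinates above one k-set and has two
unit members with orthogonal extra parts, has Borsuk number at most
C(n,k+1) 2^(n-k) + (number of extra coordinates) + 1. -/
theorem result :
    ∀ (n k : ℕ) (κ : Type) [Fintype κ]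
      (Y : Set (EuclideanSpace ℝ ({T : Finset (Fin n) // T.card = k + 1} ⊕ κ))),
      (∀ y ∈ Y, ‖y‖ ≤ 1) →
      (∀ y ∈ Y, ∀ j : κ, 0 ≤ y (Sum.inr j)) →
      (∀ y ∈ Y, ∀ S : Finset (Fin n), S.card = k →
        WithLp.toLp 2 (Sum.elim
          (fun T : {T : Finset (Fin n) // T.card = k + 1} =>
            if S ⊆ T.1 then - y (Sum.inl T) else y (Sum.inl T))
          (fun j : κ => y (Sum.inr j))) ∈ Y) →
      (∃ y ∈ Y, ∃ z ∈ Y, ‖y‖ = 1 ∧ ‖z‖ = 1 ∧ ∑ j : κ, y (Sum.inr j) * z (Sum.inr j) = 0) →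
      ∃ m : ℕ, m ≤ n.choose (k + 1) * 2 ^ (n - k) + Fintype.card κ + 1 ∧
        ∃ A : Fin m → Set (EuclideanSpace ℝ ({T : Finset (Fin n) // T.card = k + 1} ⊕ κ)),
          (⋃ i, A i) = Y ∧ ∀ i, Metric.diam (A i) < Metric.diam Y := by
  intro n k κ _ Y h1 h2 h3 h4
  classical
  refine Pool.Agent.MP_dd77b8_co.H73.closed Y h1 h2 (fun y hy S hS => ?_) h4
  convert h3 y hy S hS using 1
  ext i
  rcases i with T | j
  · have h : (Sum.inl T : _ ⊕ κ) ∈ (Pool.Agent.MP_dd77b8_co.H73.star k S).map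
        Function.Embedding.inl ↔ S ⊆ T.1 :=
      (Finset.mem_map' Function.Embedding.inl).trans Pool.Agent.MP_dd77b8_co.H73.mem_star
    simp only [Pool.Agent.MP_dd77b8_co.H73.flip, h, Sum.elim_inl]
  · simp [Pool.Agent.MP_dd77b8_co.H73.flip]

end Pool.Agent.Results.MP_dd77b8_co.SignClosed
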