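import Pool.Agent.MP_dd77b8_co.H73.Swap

set_option autoImplicit false

namespace Pool.Agent.Results.MP_dd77b8_co.SignSwap

/-- Let G be a family of functions on k-sets without zeros, each taking both signs, closed under
exchanging the signs of a positive and a negative value.  The unit product vectors of G have Borsuk
number at most C(n,k+1) C(n,k)^2 4^(n-k). -/
theorem result :
    ∀ (n k : ℕ) (G : Set (Finset (Fin n) → ℝ)), k + 2 ≤ n →
      (∀ g ∈ G, ∀ S : Finset (Fin n), S.card = k → g S ≠ 0) →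
      (∀ g ∈ G, ∃ S S' : Finset (Fin n), S.card = k ∧ S'.card = k ∧ g S' < 0 ∧ 0 < g S) →
      (∀ g ∈ G, ∀ S S' : Finset (Fin n), S.card = k → S'.card = k → g S' < 0 → 0 < g S →
        (fun U => if U = S ∨ U = S' then - g U else g U) ∈ G) →
      ∀ Y : Set (EuclideanSpace ℝ {T : Finset (Fin n) // T.card = k + 1}),
        Y = {f | ∃ g ∈ G,
              f = WithLp.toLp 2 (fun T : {T : Finset (Fin n) // T.card = k + 1} =>
                    ∏ S ∈ T.1.powersetCard k, g S) ∧ ‖f‖ = 1} →
        Y.Nonempty →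
        ∃ m : ℕ, m ≤ n.choose (k + 1) * n.choose k ^ 2 * 4 ^ (n - k) ∧
          ∃ A : Fin m → Set (EuclideanSpace ℝ {T : Finset (Fin n) // T.card = k + 1}),
            (⋃ i, A i) = Y ∧ ∀ i, Metric.diam (A i) < Metric.diam Y :=
  fun _ _ G hn h0 h1 h2 Y hY hne => Pool.Agent.MP_dd77b8_co.H73.swap hn G h0 h1 h2 Y hY hne

end Pool.Agent.Results.MP_dd77b8_co.SignSwap
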